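import Pool.Agent.W_4481e3_q87.GoR
import Pool.Agent.W_4481e3_tab.T8

/-!
Tree s02o8, data 7.
-/

namespace Pool.Agent.W_4481e3_rt.s02o8

open Pool.Agent.W_4481e3_q25.EvR

theorem k146 : ckO Pool.Agent.W_4481e3_tab.T8.tab 1144800 2220640 16777216 4194304 5931008 8388608 8 524288 524288 2621440 524288 493837352 508181872 14344520 28689040 268435456 268435456 16777216 16777216 8472495 8472495 0x100000c00000c00000c00000c00000c02000c12100000c00000c200000c00000c202000c02000c2102000c02000c203000c04000c2121212 = true := by decide +kernel

end Pool.Agent.W_4481e3_rt.s02o8
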